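import Pool.Agent.W5h75.HFC

/-!
# Every HFC space is a D-space
-/

set_option autoImplicit false

universe u

namespace Pool.Agent.Results.MP_2abaf2_gt.HFCIsD

open Pool.Agent.W5h75.HFCs

/-- For every uncountable well-ordered index set `Λ` (in particular for every uncountable
cardinal), every HFC subspace of the Cantor cube `2 ^ Λ` is a D-space. -/
theorem result (Λ : Type u) [LinearOrder Λ] [WellFoundedLT Λ] [Uncountable Λ]
    (X : Set (Λ → Bool)) (hX : HFC X) : DSpace X :=
  dSpace hX

end Pool.Agent.Results.MP_2abaf2_gt.HFCIsD
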